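import Pool.Agent.H37.CNR.Stmts
import Pool.Agent.H44.CNE.SLW

/-!
# Row WRS of board cnr: `C_p ≀ SL_2(q)`
-/

set_option autoImplicit false

namespace Pool.CND

open Finset Matrix

namespace Wrs67

open Slw44

variable {F : Type} [Field F]

theorem det0 (g : SL F) (h : g.1 1 0 = 0) : g.1 0 0 * g.1 1 1 = 1 := by
  have h1 := det2 g
  rw [h, mul_zero, sub_zero] at h1
  exact h1

/-- the upper triangular matrices -/
def B (F : Type) [Field F] : Subgroup (SL F) where
  carrier := {g | g.1 1 0 = 0}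
  one_mem' := rfl
  mul_mem' := by
    intro a b (ha : a.1 1 0 = 0) (hb : b.1 1 0 = 0)
    show (a * b).1 1 0 = 0
    rw [mul10, ha, hb]
    ring
  inv_mem' := by
    intro a (ha : a.1 1 0 = 0)
    show (a⁻¹).1 1 0 = 0
    have h1 : (a * a⁻¹).1 1 0 = 0 := by rw [mul_inv_cancel]; rfl
    rw [mul10, ha, zero_mul, zero_add] at h1
    have h2 : a.1 1 1 ≠ 0 := by
      intro h3
      have h4 := det0 a ha
      rw [h3, mul_zero] at h4
      exact zero_ne_one h4
    exact (mul_eq_zero.1 h1).resolve_left h2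

theorem mem_B (g : SL F) : g ∈ B F ↔ g.1 1 0 = 0 := Iff.rfl

/-- coordinates -/
def eqB (F : Type) [Field F] : Fˣ × F ≃ B F where
  toFun x := ⟨⟨!![(x.1 : F), x.2; 0, ((x.1⁻¹ : Fˣ) : F)], by
    rw [Matrix.det_fin_two_of, Units.mul_inv, mul_zero, sub_zero]⟩, rfl⟩
  invFun g := (⟨g.1.1 0 0, g.1.1 1 1, det0 g.1 g.2, by
    rw [mul_comm]; exact det0 g.1 g.2⟩, g.1.1 0 1)
  left_inv x := by
    refine Prod.ext (Units.ext rfl) rfl
  right_inv := by
    rintro ⟨g, h2⟩
    refine Subtype.ext (Subtype.ext ?_)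
    ext i j
    fin_cases i <;> fin_cases j
    · rfl
    · rfl
    · exact h2.symm
    · rfl

theorem card_B (q : ℕ) (hF : Nat.card F = q) : Nat.card (B F) = (q - 1) * q := by
  rw [← Nat.card_congr (eqB F), Nat.card_prod, Nat.card_units, hF]

theorem emb (p : ℕ) (k F : Type) [Field k] [IsAlgClosed k] [Field F] (f q : ℕ)
    (hp : p.Prime) (hcp : CharP k p) (hf : 1 ≤ f) (hq : q = p ^ f) (hF : Nat.card F = q) :
    Nonempty (F →+* k) := by
  have hq2 : 2 ≤ q := by
    rw [hq]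
    exact le_trans hp.two_le (Nat.le_self_pow (by omega) p)
  haveI : Finite F := Nat.finite_of_card_ne_zero (by omega)
  haveI : Fintype F := Fintype.ofFinite F
  haveI : Fact p.Prime := ⟨hp⟩
  obtain ⟨r, hr⟩ := CharP.exists F
  obtain ⟨n, hrp, hn⟩ := FiniteField.card F r
  have hrp2 : r = p := by
    rw [← Nat.card_eq_fintype_card, hF, hq] at hn
    have h1 : r ∣ p ^ f := by
      rw [hn]
      exact dvd_pow_self r n.ne_zero
    exact (Nat.prime_dvd_prime_iff_eq hrp hp).1 (hrp.dvd_of_dvd_pow h1)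
  haveI : CharP F p := by rw [← hrp2]; exact hr
  letI : Algebra (ZMod p) F := ZMod.algebra F p
  letI : Algebra (ZMod p) k := ZMod.algebra k p
  exact ⟨(IsAlgClosed.lift (R := ZMod p) (S := F) (M := k)).toRingHom⟩

theorem ram0 {k L G : Type} [Field k] [Field L] [Algebra k L] [Group G]
    (P : Place k L) (ρ : G →* (L ≃ₐ[k] L)) (g : G) : g ∈ ram P ρ 0 ↔ Fixes P (ρ g) := by
  constructor
  · exact fun h => h.1
  · intro h
    refine ⟨h, fun u _ h1 => ?_⟩
    by_cases e : ρ g u = u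
    · exact Or.inl e
    · right
      have h2 : P.Ge u 1 := by
        have h3 := P.ge_ord u
        rw [h1] at h3
        exact h3
      have h4 := (P.ge_iff (sub_ne_zero.2 e) 1).1 (P.ge_sub (h.ge h2) h2)
      rw [Nat.cast_zero, zero_add]
      exact h4

/-- the normaliser of a nontrivial `p`-subgroup has at most `q (q - 1)` elements -/
theorem card_dvd [Finite F] (p f q : ℕ) (hp : p.Prime) (hf : 1 ≤ f) (hq : q = p ^ f)
    (hcard : Nat.card F = q) (W I : Subgroup (SL F)) (hWne : W ≠ ⊥)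
    (hW : ∃ r : ℕ, Nat.card W = p ^ r) (hnorm : ∀ g ∈ I, ∀ w ∈ W, g * w * g⁻¹ ∈ W) :
    Nat.card I ∣ (q - 1) * q := by
  have hcF : Nat.card F = p ^ f := by rw [hcard, hq]
  obtain ⟨v, hv, hfix⟩ := exists_fix p f hp hf hcF W hW
  obtain ⟨h, hh0, hh1⟩ := exists_col v hv
  set A : SL F ≃* SL F := MulAut.conj h⁻¹ with hA
  have hAapp : ∀ g, h * A g = g * h := by
    intro g
    rw [hA, MulAut.conj_apply]
    group
  have hWcol : ∀ w ∈ W, (A w).1 0 0 = 1 ∧ (A w).1 1 0 = 0 := by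
    intro w hw
    have h1 := hfix w hw
    have e0 : w.1 0 0 * v 0 + w.1 0 1 * v 1 = v 0 := by
      have := congrFun h1 0
      simpa [Matrix.mulVec, dotProduct, Fin.sum_univ_two] using this
    have e1 : w.1 1 0 * v 0 + w.1 1 1 * v 1 = v 1 := by
      have := congrFun h1 1
      simpa [Matrix.mulVec, dotProduct, Fin.sum_univ_two] using this
    have k0 : h.1 0 0 * (A w).1 0 0 + h.1 0 1 * (A w).1 1 0 = v 0 := by
      rw [← mul00, hAapp, mul00, hh0, hh1, e0]
    have k1 : h.1 1 0 * (A w).1 0 0 + h.1 1 1 * (A w).1 1 0 = v 1 := by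
      rw [← mul10, hAapp, mul10, hh0, hh1, e1]
    have hd := det2 h
    rw [hh0] at hd k0
    rw [hh1] at hd k1
    constructor
    · linear_combination h.1 1 1 * k0 - h.1 0 1 * k1 + (1 - (A w).1 0 0) * hd
    · linear_combination v 0 * k1 - v 1 * k0 - (A w).1 1 0 * hd
  have hWdiag : ∀ w ∈ W, (A w).1 1 1 = 1 := by
    intro w hw
    have hd := det2 (A w)
    obtain ⟨c0, c1⟩ := hWcol w hw
    rw [c0, c1] at hd
    linear_combination hd
  obtain ⟨w0, hw0, hw01⟩ : ∃ w ∈ W, w ≠ 1 := by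
    by_contra hcon
    push Not at hcon
    exact hWne ((Subgroup.eq_bot_iff_forall W).2 hcon)
  have hβ : (A w0).1 0 1 ≠ 0 := by
    intro hz
    apply hw01
    have : A w0 = 1 := by
      obtain ⟨c0, c1⟩ := hWcol w0 hw0
      exact ext2 c0 hz c1 (hWdiag w0 hw0)
    exact (MulEquiv.map_eq_one_iff A).1 this
  have hI10 : ∀ g ∈ I, (A g).1 1 0 = 0 := by
    intro g hg
    have hu : g⁻¹ * w0 * g⁻¹⁻¹ ∈ W := hnorm g⁻¹ (I.inv_mem hg) w0 hw0
    obtain ⟨c0, c1⟩ := hWcol _ hu
    obtain ⟨d0, d1⟩ := hWcol w0 hw0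
    have e : A w0 * A g = A g * A (g⁻¹ * w0 * g⁻¹⁻¹) := by
      rw [← map_mul, ← map_mul]
      congr 1
      group
    have e0 : (A w0 * A g).1 0 0 = (A g * A (g⁻¹ * w0 * g⁻¹⁻¹)).1 0 0 := by rw [e]
    rw [mul00, mul00, c0, c1, d0] at e0
    have : (A w0).1 0 1 * (A g).1 1 0 = 0 := by linear_combination e0
    exact (mul_eq_zero.1 this).resolve_left hβ
  have hle : I.map A.toMonoidHom ≤ B F := by
    rintro _ ⟨g, hg, rfl⟩
    exact hI10 g hg
  have hc : Nat.card (I.map A.toMonoidHom) = Nat.card I :=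
    (Nat.card_congr (I.equivMapOfInjective A.toMonoidHom A.injective).toEquiv).symm
  rw [← hc, ← card_B q hcard]
  exact Subgroup.card_dvd_of_le hle

end Wrs67

open Wrs67

theorem wrs_thm (hWRE : S_WRE) (hWLD : S_WLD) (hSUB : S_SUB) (hNCL : S_NCL) (hSLE : S_SLE)
    (hSLI : S_SLI) (hSLF : S_SLF) : S_WRS := by
  intro p k F _ _ _ f q hp hp2 hch hf hq hF _
  have hq2 : 2 ≤ q := by
    rw [hq]
    exact le_trans hp.two_le (Nat.le_self_pow (by omega) p)
  haveI : Finite F := Nat.finite_of_card_ne_zero (by omega)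
  haveI : Finite (SL F) := inferInstance
  have hgcd : Nat.gcd 2 p = 1 :=
    (Nat.coprime_primes Nat.prime_two hp).2 (fun h => hp2 h.symm)
  obtain ⟨h1, h2⟩ := hWRE p k (SL F) hp hch
  -- upper bound
  have hub : ∀ e ∈ Ino k (SL F), e ∣ (q - 1) * q := by
    rintro e ⟨L, _, _, ρ, t, hcov, P, hPt, rfl⟩
    obtain ⟨W, I, hW, hI, hWI, hWp, _⟩ := hWLD p k L (SL F) P ρ hp hch hcov.inj
    obtain ⟨W', I', hW', hI', _, hnorm⟩ := hSUB k L (SL F) P ρ
    have eW : W' = W := SetLike.coe_injective (hW'.trans hW.symm)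
    have eI : I' = I := SetLike.coe_injective (hI'.trans hI.symm)
    rw [eW, eI] at hnorm
    have hWne : W ≠ ⊥ := by
      intro hbot
      have h3 := hNCL p k L (SL F) ρ t P ⊥ hp hch hcov hPt inferInstance (by
        rw [← hW, hbot])
      obtain ⟨g0, hg0⟩ : ∃ g0 : SL F, g0.1 0 1 = 1 :=
        ⟨⟨!![1, 1; 0, 1], by rw [Matrix.det_fin_two_of]; ring⟩, rfl⟩
      have h4 : g0 ∈ (⊥ : Subgroup (SL F)) := by rw [h3]; trivial
      rw [Subgroup.mem_bot] at h4
      rw [h4] at hg0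
      have h5 : (0 : F) = 1 := hg0
      exact zero_ne_one h5
    have h6 := card_dvd p f q hp hf hq hF W I hWne hWp hnorm
    have h7 : Nat.card I = (ram P ρ 0).ncard := by
      rw [← hI]
      exact Nat.card_coe_set_eq _
    rw [← h7]
    exact h6
  -- lower bound
  have hmem : (q - 1) * q ∈ Ino k (SL F) := by
    obtain ⟨φ⟩ := emb p k F f q hp hch hf hq hF
    let : Algebra F k := φ.toAlgebra
    obtain ⟨L, iL, iA, s, x, y, ρ, P, hSl⟩ :=
      hSLE p k F f q 1 hp hch hf hq hF le_rfl (Nat.coprime_one_left _)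
    have hcov := hSLI p k F L f q 1 s x y ρ P hp hch hf hq hF le_rfl (Nat.coprime_one_left _) hSl
    have hfx := hSLF p k F L f q 1 s x y ρ P hp hch hf hq hF le_rfl (Nat.coprime_one_left _) hSl
    refine ⟨L, iL, iA, ρ, s, hcov, P, ?_, ?_⟩
    · rw [hSl.ord_s]
      have h3 : 0 < q * (q - 1) := Nat.mul_pos (by omega) (by omega)
      have h4 : (0 : ℤ) < ((q * (q - 1) : ℕ) : ℤ) := by exact_mod_cast h3
      linarith
    · have h0 : ram P ρ 0 = (B F : Set (SL F)) := by
        ext g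
        rw [ram0, hfx]
        rfl
      rw [h0, ← card_B q hF]
      exact (Nat.card_coe_set_eq _)
  have h3 := h1 _ hmem
  rw [hgcd, one_mul] at h3
  have h4 := (h2 ((q - 1) * q) (Nat.mul_pos (by omega) (by omega)) hub).2
  rw [mul_comm q (q - 1)]
  exact Nat.dvd_antisymm h4 h3

end Pool.CND
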