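import Pool.Agent.H37.CNR.Stmts

/-!
# Row WUB of board cnr: the upper bound for extensions by an elementary abelian kernel
-/

set_option autoImplicit false

namespace Pool.CND

open Finset

theorem wub_thm (hWQU : S_WQU) (hWRU : S_WRU) (hNGD : S_NGD) (hSUB : S_SUB) : S_WUB := by
  classical
  intro p k G H _ _ _ _ _ π n hp hch hsur hEA hn hIno
  have key : ∀ c ∈ Cond k G, ∃ y : ℤ, (n : ℚ) * c = y := by
    rintro c ⟨L', _, _, ρ', t', hcov, P', hPt', hc⟩
    obtain ⟨L, iL, iA, ρ, t, j, P, e', hcov1, hjt, hPt, hWX⟩ :=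
      hWQU k L' G H ρ' π P' t' hcov hPt' hsur
    obtain ⟨W, I, hW, hI, _, _⟩ := hSUB k L H P ρ
    have := Fintype.ofFinite G
    have hne : ∀ (g : G) (x : L'), x ≠ 0 → ρ' g x ≠ 0 := by
      intro g x hx h
      exact hx ((map_eq_zero_iff (ρ' g) (ρ' g).injective).1 h)
    let A : Subgroup G :=
      { carrier := {g | π g = 1 ∧ Fixes P' (ρ' g)}
        one_mem' := by
          refine ⟨map_one π, fun x _ => ?_⟩
          rw [map_one]
          rfl
        mul_mem' := by
          rintro a b ⟨ha, ha'⟩ ⟨hb, hb'⟩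
          refine ⟨by rw [map_mul, ha, hb, one_mul], fun x hx => ?_⟩
          rw [map_mul]
          show P'.ord (ρ' a (ρ' b x)) = P'.ord x
          rw [ha' _ (hne b x hx), hb' x hx]
        inv_mem' := by
          rintro a ⟨ha, ha'⟩
          refine ⟨by rw [map_inv, ha, inv_one], fun x hx => ?_⟩
          have h1 : ρ' a (ρ' a⁻¹ x) = x := by
            rw [← AlgEquiv.mul_apply, ← map_mul, mul_inv_cancel, map_one]
            rfl
          rw [← ha' _ (hne a⁻¹ x hx), h1] }
    have hA : ∀ g : G, g ∈ A ↔ π g = 1 ∧ Fixes P' (ρ' g) := fun g => Iff.rfl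
    have hEA' : EA p A := by
      refine ⟨fun a ha => hEA.1 a ((hA a).1 ha).1, fun a ha b hb => ?_⟩
      exact hEA.2 a ((hA a).1 ha).1 b ((hA b).1 hb).1
    obtain ⟨y, hy⟩ := hWRU p k L L' G H ρ ρ' j π P P' e' A I c hp hch hWX hA hEA' hI hc
    have hcard : (Nat.card I : ℕ) = (ram P ρ 0).ncard := by
      rw [← hI]
      exact Nat.card_coe_set_eq _
    obtain ⟨m, hm⟩ := hIno (Nat.card I) ⟨L, iL, iA, ρ, t, hcov1, P, hPt, hcard⟩
    refine ⟨m * y, ?_⟩
    rw [hm]
    push_cast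
    rw [← hy]
    ring
  exact ⟨key, hNGD k G n hn key⟩

end Pool.CND
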